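import Pool.Agent.Results.MP_9e9244_an.SquareRieszBasis

/-! # Folding maps on `[0, 1]` and the kernel of the analysis operator of a triangle -/

set_option autoImplicit false

open MeasureTheory Measure Set
open scoped ENNReal RealInnerProductSpace ComplexConjugate

namespace Pool.Agent.L7h34.TR

open Pool.Agent.Results.MP_9e9244_an.SquareRieszBasis

theorem vol_pre (d : ℝ) {B : Set ℝ} (hB : MeasurableSet B) :
    volume ((fun x : ℝ => d - x / 2) ⁻¹' B) = 2 * volume B := by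
  have h1 : (fun x : ℝ => d - x / 2) ⁻¹' B = (fun x : ℝ => x * (1 / 2)) ⁻¹' ((fun y : ℝ => d - y) ⁻¹' B) := by
    ext x
    simp only [mem_preimage]
    rw [show d - x / 2 = d - x * (1 / 2) by ring]
  rw [h1, Real.volume_preimage_mul_right (by norm_num)]
  have h2 : volume ((fun y : ℝ => d - y) ⁻¹' B) = volume B :=
    (measurePreserving_sub_left volume d).measure_preimage hB.nullMeasurableSet
  rw [h2]
  congr 1
  norm_num

theorem cont_half (d : ℝ) : Continuous (fun x : ℝ => d - x / 2) := by fun_prop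

theorem map_le {d : ℝ} (h1 : 1 / 2 ≤ d) (h2 : d ≤ 1) :
    tau.map (fun x : ℝ => d - x / 2) ≤ (2 : ℝ≥0∞) • tau := by
  refine Measure.le_iff.2 fun s hs => ?_
  rw [map_apply (cont_half d).measurable hs, Measure.smul_apply, smul_eq_mul]
  unfold tau
  rw [restrict_apply ((cont_half d).measurable hs), restrict_apply hs]
  have hsub : (fun x : ℝ => d - x / 2) ⁻¹' s ∩ Icc (0 : ℝ) 1 ⊆
      (fun x : ℝ => d - x / 2) ⁻¹' (s ∩ Icc (0 : ℝ) 1) := by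
    rintro x ⟨hx1, hx2, hx3⟩
    refine ⟨hx1, ?_, ?_⟩
    · show 0 ≤ d - x / 2
      linarith
    · show d - x / 2 ≤ 1
      linarith
  refine (measure_mono hsub).trans (le_of_eq ?_)
  exact vol_pre d (hs.inter measurableSet_Icc)

theorem memLp_half {d : ℝ} (h1 : 1 / 2 ≤ d) (h2 : d ≤ 1) {f : ℝ → ℂ} (hf : MemLp f 2 tau) :
    MemLp (fun x : ℝ => f (d - x / 2)) 2 tau := by
  have h3 : MemLp f 2 (tau.map (fun x : ℝ => d - x / 2)) :=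
    MemLp.of_measure_le_smul (c := 2) (by norm_num) (map_le h1 h2) hf
  exact h3.comp_of_map (cont_half d).measurable.aemeasurable

theorem ae_half {d : ℝ} (h1 : 1 / 2 ≤ d) (h2 : d ≤ 1) {p : ℝ → Prop} (hp : ∀ᵐ x ∂tau, p x) :
    ∀ᵐ x ∂tau, p (d - x / 2) := by
  have h3 : (tau.map (fun x : ℝ => d - x / 2)) ≪ tau :=
    (Measure.absolutelyContinuous_of_le (map_le h1 h2)).trans
      (Measure.smul_absolutelyContinuous)
  exact ae_of_ae_map (cont_half d).measurable.aemeasurable (h3.ae_le hp)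

/-- folding an integral -/
theorem fold {F : Type*} [NormedAddCommGroup F] [NormedSpace ℝ F] (g : ℝ → F) (hg : Integrable g tau) :
    ∫ x, g x ∂tau = (1 / 2 : ℝ) • ∫ x, g (1 / 2 - x / 2) ∂tau + (1 / 2 : ℝ) • ∫ x, g (1 - x / 2) ∂tau := by
  have hi : IntervalIntegrable g volume 0 1 := by
    rw [intervalIntegrable_iff_integrableOn_Icc_of_le zero_le_one]
    exact hg
  unfold tau
  rw [integral_Icc_eq_integral_Ioc, integral_Icc_eq_integral_Ioc, integral_Icc_eq_integral_Ioc,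
    ← intervalIntegral.integral_of_le zero_le_one, ← intervalIntegral.integral_of_le zero_le_one,
    ← intervalIntegral.integral_of_le zero_le_one,
    intervalIntegral.integral_comp_sub_div _ (by norm_num : (2 : ℝ) ≠ 0),
    intervalIntegral.integral_comp_sub_div _ (by norm_num : (2 : ℝ) ≠ 0), smul_smul, smul_smul]
  norm_num
  rw [intervalIntegral.integral_add_adjacent_intervals]
  · exact hi.mono_set (by
      rw [uIcc_of_le (by norm_num), uIcc_of_le (by norm_num)]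
      exact Icc_subset_Icc le_rfl (by norm_num))
  · exact hi.mono_set (by
      rw [uIcc_of_le (by norm_num), uIcc_of_le (by norm_num)]
      exact Icc_subset_Icc (by norm_num) le_rfl)

theorem fold_sq {f : ℝ → ℂ} (hf : MemLp f 2 tau) :
    ∫ x, ‖f x‖ ^ 2 ∂tau = ∫ x, (‖f (1 / 2 - x / 2)‖ ^ 2 + ‖f (1 - x / 2)‖ ^ 2) / 2 ∂tau := by
  have hi : Integrable (fun x => ‖f x‖ ^ 2) tau := hf.integrable_norm_pow (by norm_num)
  have h0 : Integrable (fun x => ‖f (1 / 2 - x / 2)‖ ^ 2) tau :=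
    (memLp_half le_rfl (by norm_num) hf).integrable_norm_pow (by norm_num)
  have h1 : Integrable (fun x => ‖f (1 - x / 2)‖ ^ 2) tau :=
    (memLp_half (by norm_num) le_rfl hf).integrable_norm_pow (by norm_num)
  rw [fold _ hi, integral_div, integral_add h0 h1, smul_eq_mul, smul_eq_mul]
  ring

/-- the pointwise identity behind the injectivity -/
theorem pt_identity (x y z : ℂ) :
    ‖(x + y - z) / 2‖ ^ 2 + ‖(-x - y - z) / 2‖ ^ 2 + ‖(x - y - z) / 2‖ ^ 2 =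
      ‖x‖ ^ 2 + ‖y‖ ^ 2 + ‖z‖ ^ 2 - ‖x - y + z‖ ^ 2 / 4 := by
  simp only [← Complex.normSq_eq_norm_sq, Complex.normSq_apply]
  simp only [Complex.add_re, Complex.sub_re, Complex.neg_re, Complex.add_im, Complex.sub_im, Complex.neg_im,
    Complex.div_ofNat_re, Complex.div_ofNat_im]
  ring

theorem par_identity (p q : ℂ) :
    (‖p‖ ^ 2 + ‖q‖ ^ 2) / 2 = ‖(q + p) / 2‖ ^ 2 + ‖(q - p) / 2‖ ^ 2 := by
  simp only [← Complex.normSq_eq_norm_sq, Complex.normSq_apply]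
  simp only [Complex.add_re, Complex.sub_re, Complex.add_im, Complex.sub_im,
    Complex.div_ofNat_re, Complex.div_ofNat_im]
  ring

/-- the kernel of the folded system is trivial -/
theorem kernel {f₁ f₂ f₃ : ℝ → ℂ} (m1 : MemLp f₁ 2 tau) (m2 : MemLp f₂ 2 tau) (m3 : MemLp f₃ 2 tau)
    (h1 : ∀ᵐ s ∂tau, f₂ s - f₃ s + (f₁ (1 - s / 2) - f₁ (1 / 2 - s / 2)) / 2 = 0)
    (h2 : ∀ᵐ s ∂tau, f₁ s - f₃ s - (f₂ (1 - s / 2) - f₂ (1 / 2 - s / 2)) / 2 = 0)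
    (h3 : ∀ᵐ s ∂tau, f₁ s + f₂ s + (f₃ (1 - s / 2) + f₃ (1 / 2 - s / 2)) / 2 = 0) :
    f₁ =ᵐ[tau] 0 ∧ f₂ =ᵐ[tau] 0 ∧ f₃ =ᵐ[tau] 0 := by
  have hm : ∀ {f : ℝ → ℂ}, MemLp f 2 tau → Integrable (fun x => ‖f x‖ ^ 2) tau := fun hf =>
    hf.integrable_norm_pow (by norm_num)
  have a0 : ∀ {f : ℝ → ℂ}, MemLp f 2 tau → MemLp (fun x : ℝ => f (1 / 2 - x / 2)) 2 tau := fun hf =>
    memLp_half le_rfl (by norm_num) hf
  have a1 : ∀ {f : ℝ → ℂ}, MemLp f 2 tau → MemLp (fun x : ℝ => f (1 - x / 2)) 2 tau := fun hf =>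
    memLp_half (by norm_num) le_rfl hf
  have hd : ∀ {f : ℝ → ℂ}, MemLp f 2 tau →
      Integrable (fun x => (‖f (1 / 2 - x / 2)‖ ^ 2 + ‖f (1 - x / 2)‖ ^ 2) / 2 - ‖f x‖ ^ 2) tau := fun hf =>
    (((hm (a0 hf)).add (hm (a1 hf))).div_const 2).sub (hm hf)
  have hz : ∀ {f : ℝ → ℂ}, MemLp f 2 tau →
      ∫ x, ((‖f (1 / 2 - x / 2)‖ ^ 2 + ‖f (1 - x / 2)‖ ^ 2) / 2 - ‖f x‖ ^ 2) ∂tau = 0 := by
    intro f hf
    have hi : Integrable (fun x => (‖f (1 / 2 - x / 2)‖ ^ 2 + ‖f (1 - x / 2)‖ ^ 2) / 2) tau :=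
      ((hm (a0 hf)).add (hm (a1 hf))).div_const 2
    rw [integral_sub hi (hm hf), fold_sq hf, sub_self]
  set Ψ : ℝ → ℝ := fun s => ‖(f₁ (1 - s / 2) + f₁ (1 / 2 - s / 2)) / 2‖ ^ 2 +
    ‖(f₂ (1 - s / 2) + f₂ (1 / 2 - s / 2)) / 2‖ ^ 2 + ‖(f₃ (1 - s / 2) - f₃ (1 / 2 - s / 2)) / 2‖ ^ 2 +
    ‖(f₁ (1 - s / 2) - f₁ (1 / 2 - s / 2)) / 2 - (f₂ (1 - s / 2) - f₂ (1 / 2 - s / 2)) / 2 +
      (f₃ (1 - s / 2) + f₃ (1 / 2 - s / 2)) / 2‖ ^ 2 / 4 with hΨ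
  have hkey : ∀ᵐ s ∂tau, Ψ s = ((‖f₁ (1 / 2 - s / 2)‖ ^ 2 + ‖f₁ (1 - s / 2)‖ ^ 2) / 2 - ‖f₁ s‖ ^ 2) +
      ((‖f₂ (1 / 2 - s / 2)‖ ^ 2 + ‖f₂ (1 - s / 2)‖ ^ 2) / 2 - ‖f₂ s‖ ^ 2) +
      ((‖f₃ (1 / 2 - s / 2)‖ ^ 2 + ‖f₃ (1 - s / 2)‖ ^ 2) / 2 - ‖f₃ s‖ ^ 2) := by
    filter_upwards [h1, h2, h3] with s k1 k2 k3
    rw [par_identity (f₁ (1 / 2 - s / 2)) (f₁ (1 - s / 2)), par_identity (f₂ (1 / 2 - s / 2)) (f₂ (1 - s / 2)),
      par_identity (f₃ (1 / 2 - s / 2)) (f₃ (1 - s / 2))]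
    set x := (f₁ (1 - s / 2) - f₁ (1 / 2 - s / 2)) / 2
    set y := (f₂ (1 - s / 2) - f₂ (1 / 2 - s / 2)) / 2
    set z := (f₃ (1 - s / 2) + f₃ (1 / 2 - s / 2)) / 2
    have e1 : f₁ s = (x + y - z) / 2 := by linear_combination (k3 + k2 - k1) / 2
    have e2 : f₂ s = (-x - y - z) / 2 := by linear_combination (k3 + k1 - k2) / 2
    have e3 : f₃ s = (x - y - z) / 2 := by linear_combination (k3 - k1 - k2) / 2
    have e4 := pt_identity x y z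
    rw [e1, e2, e3]
    simp only [hΨ]
    linarith
  have hΨi : Integrable (fun s => ((‖f₁ (1 / 2 - s / 2)‖ ^ 2 + ‖f₁ (1 - s / 2)‖ ^ 2) / 2 - ‖f₁ s‖ ^ 2) +
      ((‖f₂ (1 / 2 - s / 2)‖ ^ 2 + ‖f₂ (1 - s / 2)‖ ^ 2) / 2 - ‖f₂ s‖ ^ 2) +
      ((‖f₃ (1 / 2 - s / 2)‖ ^ 2 + ‖f₃ (1 - s / 2)‖ ^ 2) / 2 - ‖f₃ s‖ ^ 2)) tau :=
    ((hd m1).add (hd m2)).add (hd m3)
  have hΨi' : Integrable Ψ tau := hΨi.congr (hkey.mono fun s hs => hs.symm)
  have hΨ0 : ∫ s, Ψ s ∂tau = 0 := by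
    have i12 : Integrable (fun s => ((‖f₁ (1 / 2 - s / 2)‖ ^ 2 + ‖f₁ (1 - s / 2)‖ ^ 2) / 2 - ‖f₁ s‖ ^ 2) +
      ((‖f₂ (1 / 2 - s / 2)‖ ^ 2 + ‖f₂ (1 - s / 2)‖ ^ 2) / 2 - ‖f₂ s‖ ^ 2)) tau := (hd m1).add (hd m2)
    rw [integral_congr_ae hkey, integral_add i12 (hd m3), integral_add (hd m1) (hd m2), hz m1, hz m2, hz m3]
    norm_num
  have hΨn : ∀ s, 0 ≤ Ψ s := fun s => by simp only [hΨ]; positivity
  rw [integral_eq_zero_iff_of_nonneg hΨn hΨi'] at hΨ0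
  have hall : ∀ᵐ s ∂tau, (f₁ (1 / 2 - s / 2) = - f₁ (1 - s / 2)) ∧ (f₂ (1 / 2 - s / 2) = - f₂ (1 - s / 2)) ∧
      (f₃ (1 / 2 - s / 2) = f₃ (1 - s / 2)) ∧ (f₃ (1 - s / 2) = f₂ (1 - s / 2) - f₁ (1 - s / 2)) := by
    filter_upwards [hΨ0] with s hs
    have hs' : Ψ s = 0 := hs
    simp only [hΨ] at hs'
    set A := (f₁ (1 - s / 2) + f₁ (1 / 2 - s / 2)) / 2 with hA
    set B := (f₂ (1 - s / 2) + f₂ (1 / 2 - s / 2)) / 2 with hB
    set C := (f₃ (1 - s / 2) - f₃ (1 / 2 - s / 2)) / 2 with hC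
    set D := (f₁ (1 - s / 2) - f₁ (1 / 2 - s / 2)) / 2 - (f₂ (1 - s / 2) - f₂ (1 / 2 - s / 2)) / 2 +
      (f₃ (1 - s / 2) + f₃ (1 / 2 - s / 2)) / 2 with hD
    have n1 := sq_nonneg ‖A‖
    have n2 := sq_nonneg ‖B‖
    have n3 := sq_nonneg ‖C‖
    have n4 := sq_nonneg ‖D‖
    have z1 : A = 0 := norm_eq_zero.1 (pow_eq_zero_iff (two_ne_zero)|>.1 (by linarith))
    have z2 : B = 0 := norm_eq_zero.1 (pow_eq_zero_iff (two_ne_zero)|>.1 (by linarith))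
    have z3 : C = 0 := norm_eq_zero.1 (pow_eq_zero_iff (two_ne_zero)|>.1 (by linarith))
    have z4 : D = 0 := norm_eq_zero.1 (pow_eq_zero_iff (two_ne_zero)|>.1 (by linarith))
    rw [hA] at z1
    rw [hB] at z2
    rw [hC] at z3
    rw [hD] at z4
    refine ⟨?_, ?_, ?_, ?_⟩
    · linear_combination 2 * z1
    · linear_combination 2 * z2
    · linear_combination -2 * z3
    · linear_combination z4 + z1 - z2 + z3
  have hval : ∀ᵐ s ∂tau, f₁ s = f₁ (1 - s / 2) ∧ f₂ s = - f₂ (1 - s / 2) ∧ f₃ s = f₁ s + f₂ s := by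
    filter_upwards [h1, h2, h3, hall] with s k1 k2 k3 ⟨b1, b2, b3, b4⟩
    rw [b1] at k1
    rw [b2] at k2
    rw [b3] at k3
    rw [b4] at k3
    have e1 : f₁ s = f₁ (1 - s / 2) := by linear_combination (k3 + k2 - k1) / 2
    have e2 : f₂ s = - f₂ (1 - s / 2) := by linear_combination (k3 + k1 - k2) / 2
    refine ⟨e1, e2, ?_⟩
    linear_combination -k2 - e2
  have hval1 := ae_half (d := 1) (by norm_num) le_rfl hval
  have hval0 := ae_half (d := 1 / 2) le_rfl (by norm_num) hval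
  have hfin : ∀ᵐ s ∂tau, f₁ s = 0 ∧ f₂ s = 0 ∧ f₃ s = 0 := by
    filter_upwards [hall, hval, hval1, hval0] with s ⟨b1, b2, b3, b4⟩ ⟨c1, c2, c3⟩ ⟨_, _, d3⟩ ⟨_, _, d3'⟩
    have z1 : f₁ (1 - s / 2) = 0 := by linear_combination (b4 - d3) / 2
    have z2 : f₂ (1 - s / 2) = 0 := by
      rw [b1, b2, b3, z1] at d3'
      rw [z1] at b4
      linear_combination (d3' - b4) / 2
    refine ⟨by rw [c1, z1], by rw [c2, z2, neg_zero], ?_⟩
    rw [c3, c1, c2, z1, z2]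
    simp
  exact ⟨hfin.mono fun s hs => hs.1, hfin.mono fun s hs => hs.2.1, hfin.mono fun s hs => hs.2.2⟩

end Pool.Agent.L7h34.TR
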