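import Pool.Agent.L7h34.TR.Sums

/-! # The boundary of a triangle -/

set_option autoImplicit false

open MeasureTheory Measure Set
open scoped ENNReal RealInnerProductSpace ComplexConjugate

namespace Pool.Agent.L7h34.TR

open Pool.Agent.Results.MP_9e9244_an.SquareRieszBasis

theorem lin_of_aff {p q r : E} (h : AffineIndependent ℝ ![p, q, r]) : LinearIndependent ℝ ![q - p, r - p] := by
  rw [LinearIndependent.pair_iff]
  intro s t hst
  rw [affineIndependent_iff] at h
  have h1 := h Finset.univ ![-s - t, s, t] (by
    rw [Fin.sum_univ_three]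
    show -s - t + s + t = 0
    ring) (by
    rw [Fin.sum_univ_three]
    simp only [Matrix.cons_val_zero, Matrix.cons_val_one, Matrix.cons_val_two, Matrix.head_cons, Matrix.tail_cons]
    rw [← hst]
    simp only [smul_sub, sub_smul, neg_smul]
    abel)
  exact ⟨h1 1 (Finset.mem_univ _), h1 2 (Finset.mem_univ _)⟩

/-- the boundary of a triangle is the union of its three sides -/
theorem frontier_tri {p q r : E} (h : AffineIndependent ℝ ![p, q, r]) :
    frontier (convexHull ℝ {p, q, r}) = segment ℝ p q ∪ segment ℝ q r ∪ segment ℝ r p := by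
  have hspan : affineSpan ℝ (range ![p, q, r]) = ⊤ := by
    rw [h.affineSpan_eq_top_iff_card_eq_finrank_add_one]
    simp
  set B : AffineBasis (Fin 3) ℝ E := ⟨![p, q, r], h, hspan⟩ with hB
  have hr : range B = {p, q, r} := by
    show range ![p, q, r] = {p, q, r}
    rw [Matrix.range_cons, Matrix.range_cons, Matrix.range_cons, Matrix.range_empty, union_empty]
    rfl
  have hclosed : IsClosed (convexHull ℝ ({p, q, r} : Set E)) := by
    have : ({p, q, r} : Set E).Finite := by simp
    exact (this.isCompact_convexHull (𝕜 := ℝ)).isClosed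
  rw [frontier, hclosed.closure_eq, ← hr, B.interior_convexHull, B.convexHull_eq_nonneg_coord]
  have hsum : ∀ x : E, B.coord 0 x + B.coord 1 x + B.coord 2 x = 1 := fun x => by
    have := B.sum_coord_apply_eq_one x
    rwa [Fin.sum_univ_three] at this
  have hcomb : ∀ x : E, x = B.coord 0 x • p + B.coord 1 x • q + B.coord 2 x • r := fun x => by
    have := B.linear_combination_coord_eq_self x
    rw [Fin.sum_univ_three] at this
    exact this.symm
  have c00 : B.coord 0 p = 1 := B.coord_apply_eq 0
  have c11 : B.coord 1 q = 1 := B.coord_apply_eq 1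
  have c22 : B.coord 2 r = 1 := B.coord_apply_eq 2
  have c01 : B.coord 0 q = 0 := B.coord_apply_ne (i := 0) (j := 1) (by decide)
  have c02 : B.coord 0 r = 0 := B.coord_apply_ne (i := 0) (j := 2) (by decide)
  have c10 : B.coord 1 p = 0 := B.coord_apply_ne (i := 1) (j := 0) (by decide)
  have c12 : B.coord 1 r = 0 := B.coord_apply_ne (i := 1) (j := 2) (by decide)
  have c20 : B.coord 2 p = 0 := B.coord_apply_ne (i := 2) (j := 0) (by decide)
  have c21 : B.coord 2 q = 0 := B.coord_apply_ne (i := 2) (j := 1) (by decide)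
  have hseg : ∀ (i : Fin 3) (y z : E) (s t : ℝ), s + t = 1 →
      B.coord i (s • y + t • z) = s * B.coord i y + t * B.coord i z := by
    intro i y z s t hst
    have hs1 : s = 1 - t := by linarith
    have h1 : s • y + t • z = AffineMap.lineMap y z t := by
      rw [AffineMap.lineMap_apply, vsub_eq_sub, vadd_eq_add, smul_sub, hs1, sub_smul, one_smul]
      abel
    rw [h1, AffineMap.apply_lineMap, AffineMap.lineMap_apply, vsub_eq_sub, vadd_eq_add, smul_eq_mul, hs1]
    ring
  ext x
  simp only [mem_sdiff, mem_ofPred_eq, mem_union, not_forall, not_lt]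
  constructor
  · rintro ⟨h0, i, hi⟩
    have hx := hcomb x
    have hs := hsum x
    have h00 := h0 0
    have h01 := h0 1
    have h02 := h0 2
    fin_cases i
    · have hz : B.coord 0 x = 0 := le_antisymm hi h00
      left; right
      refine ⟨B.coord 1 x, B.coord 2 x, h01, h02, by linarith, ?_⟩
      rw [hz, zero_smul, zero_add] at hx
      exact hx.symm
    · have hz : B.coord 1 x = 0 := le_antisymm hi h01
      right
      refine ⟨B.coord 2 x, B.coord 0 x, h02, h00, by linarith, ?_⟩
      rw [hz, zero_smul, add_zero, add_comm] at hx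
      exact hx.symm
    · have hz : B.coord 2 x = 0 := le_antisymm hi h02
      left; left
      refine ⟨B.coord 0 x, B.coord 1 x, h00, h01, by linarith, ?_⟩
      rw [hz, zero_smul, add_zero] at hx
      exact hx.symm
  · rintro ((⟨s, t, hs, ht, hst, rfl⟩ | ⟨s, t, hs, ht, hst, rfl⟩) | ⟨s, t, hs, ht, hst, rfl⟩)
    · refine ⟨fun i => ?_, 2, ?_⟩
      · rw [hseg i _ _ _ _ hst]
        fin_cases i
        · show 0 ≤ s * B.coord 0 p + t * B.coord 0 q
          rw [c00, c01]; linarith
        · show 0 ≤ s * B.coord 1 p + t * B.coord 1 q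
          rw [c10, c11]; linarith
        · show 0 ≤ s * B.coord 2 p + t * B.coord 2 q
          rw [c20, c21]; linarith
      · rw [hseg 2 _ _ _ _ hst, c20, c21]; linarith
    · refine ⟨fun i => ?_, 0, ?_⟩
      · rw [hseg i _ _ _ _ hst]
        fin_cases i
        · show 0 ≤ s * B.coord 0 q + t * B.coord 0 r
          rw [c01, c02]; linarith
        · show 0 ≤ s * B.coord 1 q + t * B.coord 1 r
          rw [c11, c12]; linarith
        · show 0 ≤ s * B.coord 2 q + t * B.coord 2 r
          rw [c21, c22]; linarith
      · rw [hseg 0 _ _ _ _ hst, c01, c02]; linarith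
    · refine ⟨fun i => ?_, 1, ?_⟩
      · rw [hseg i _ _ _ _ hst]
        fin_cases i
        · show 0 ≤ s * B.coord 0 r + t * B.coord 0 p
          rw [c02, c00]; linarith
        · show 0 ≤ s * B.coord 1 r + t * B.coord 1 p
          rw [c12, c10]; linarith
        · show 0 ≤ s * B.coord 2 r + t * B.coord 2 p
          rw [c22, c20]; linarith
      · rw [hseg 1 _ _ _ _ hst, c12, c10]; linarith

variable {b u v : E}

/-- the length measure of the boundary of the triangle with vertices `b`, `b + u`, `b + v` -/
noncomputable def sg (b u v : E) : Measure E := (μH[1] : Measure E).restrict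
  (segment ℝ b (b + u) ∪ segment ℝ (b + u) (b + v) ∪ segment ℝ (b + v) b)

theorem sg_eq (h : LinearIndependent ℝ ![u, v]) :
    sg b u v = edgeM b u + edgeM (b + u) (v - u) + edgeM (b + v) (-v) := by
  have s2 : segment ℝ (b + u) (b + v) = segment ℝ (b + u) (b + u + (v - u)) := by
    congr 1; abel
  have s3 : segment ℝ (b + v) b = segment ℝ (b + v) (b + v + -v) := by
    congr 1; abel
  have d12 : AEDisjoint (μH[1] : Measure E) (segment ℝ b (b + u)) (segment ℝ (b + u) (b + v)) := by
    refine null_of_single (p := b + u) ?_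
    rintro x ⟨h1, h2⟩
    rw [s2] at h2
    obtain ⟨t, rfl⟩ := seg_mem h1
    obtain ⟨s, hs⟩ := seg_mem h2
    have := coord_inj h (x := t) (y := 0) (x' := 1 - s) (y' := s) (by
      have : b + (t • u + (0 : ℝ) • v) = b + ((1 - s) • u + s • v) := by
        rw [zero_smul, add_zero, hs, sub_smul, one_smul, smul_sub]; abel
      exact add_left_cancel this)
    have ht : t = 1 := by linarith [this.1, this.2]
    rw [ht, one_smul]
    rfl
  have d13 : AEDisjoint (μH[1] : Measure E) (segment ℝ b (b + u)) (segment ℝ (b + v) b) := by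
    refine null_of_single (p := b) ?_
    rintro x ⟨h1, h2⟩
    rw [s3] at h2
    obtain ⟨t, rfl⟩ := seg_mem h1
    obtain ⟨s, hs⟩ := seg_mem h2
    have := coord_inj h (x := t) (y := 0) (x' := 0) (y' := 1 - s) (by
      have : b + (t • u + (0 : ℝ) • v) = b + ((0 : ℝ) • u + (1 - s) • v) := by
        rw [zero_smul, add_zero, zero_smul, hs, sub_smul, one_smul, smul_neg]; abel
      exact add_left_cancel this)
    rw [this.1, zero_smul, add_zero]
    rfl
  have d23 : AEDisjoint (μH[1] : Measure E) (segment ℝ (b + u) (b + v)) (segment ℝ (b + v) b) := by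
    refine null_of_single (p := b + v) ?_
    rintro x ⟨h1, h2⟩
    rw [s2] at h1
    rw [s3] at h2
    obtain ⟨t, rfl⟩ := seg_mem h1
    obtain ⟨s, hs⟩ := seg_mem h2
    have := coord_inj h (x := 1 - t) (y := t) (x' := 0) (y' := 1 - s) (by
      have : b + ((1 - t) • u + t • v) = b + ((0 : ℝ) • u + (1 - s) • v) := by
        have h3 : b + ((1 - t) • u + t • v) = b + u + t • (v - u) := by
          rw [sub_smul, one_smul, smul_sub]; abel
        rw [h3, hs, zero_smul, sub_smul, one_smul, smul_neg]; abel
      exact add_left_cancel this)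
    have ht : t = 1 := by linarith [this.1]
    rw [ht, one_smul]
    show b + u + (v - u) = b + v
    abel
  unfold sg
  rw [restrict_union₀ (AEDisjoint.union_left d13 d23) (meas_seg _ _).nullMeasurableSet,
    restrict_union₀ d12 (meas_seg _ _).nullMeasurableSet, s2, s3, restrict_segment, restrict_segment,
    restrict_segment]

theorem sg_finite (h : LinearIndependent ℝ ![u, v]) : IsFiniteMeasure (sg b u v) := by
  rw [sg_eq h]
  infer_instance

theorem integral_sg (h : LinearIndependent ℝ ![u, v]) {G : E → ℝ} (hG : Continuous G) {M : ℝ}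
    (hM : ∀ x, ‖G x‖ ≤ M) :
    ∫ x, G x ∂(sg b u v) = ‖u‖ * ∫ t, G (b + t • u) ∂tau + ‖v - u‖ * ∫ t, G (b + u + t • (v - u)) ∂tau
      + ‖v‖ * ∫ t, G (b + v + t • (-v)) ∂tau := by
  rw [sg_eq h, integral_add_measure (cont_int _ hG hM) (cont_int _ hG hM),
    integral_add_measure (cont_int _ hG hM) (cont_int _ hG hM),
    integral_edge _ _ _ hG.aestronglyMeasurable, integral_edge _ _ _ hG.aestronglyMeasurable,
    integral_edge _ _ _ hG.aestronglyMeasurable, norm_neg]
  simp only [smul_eq_mul]

theorem le_sg (h : LinearIndependent ℝ ![u, v]) :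
    edgeM b u ≤ sg b u v ∧ edgeM (b + u) (v - u) ≤ sg b u v ∧ edgeM (b + v) (-v) ≤ sg b u v := by
  rw [sg_eq h]
  refine ⟨?_, ?_, ?_⟩
  · intro s
    simp only [Measure.add_apply]
    exact le_add_right le_self_add
  · intro s
    simp only [Measure.add_apply]
    exact le_add_right le_add_self
  · intro s
    simp only [Measure.add_apply]
    exact le_add_self

end Pool.Agent.L7h34.TR
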