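import Pool.Agent.L7h34.TR.Fold

/-! # The Riesz inequality for the trigonometric sums on the boundary of a triangle -/

set_option autoImplicit false

open MeasureTheory Measure Set
open scoped ENNReal RealInnerProductSpace ComplexConjugate

namespace Pool.Agent.L7h34.TR

open Pool.Agent.Results.MP_9e9244_an.SquareRieszBasis

/-- the inner products of the frequencies with the first side -/
noncomputable def xc : Fin 3 → ℤ → ℝ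
  | 0, m => -(2 * m + 1)
  | 1, m => m + 1 / 2
  | 2, m => m

/-- the inner products of the frequencies with the second side -/
noncomputable def yc : Fin 3 → ℤ → ℝ
  | 0, m => -(m + 1 / 2)
  | 1, m => -(m + 1 / 2)
  | 2, m => 2 * m

theorem e_neg_half : e (-(1 / 2)) = -1 := by
  rw [← conj_e, e_half]
  simp

theorem e_add_int (t : ℝ) (m : ℤ) : e (t + m) = e t := by rw [e_add, e_int, mul_one]

section sums

variable (K : Finset ℤ) (a : Fin 3 → ℤ → ℂ)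

/-- the periodic sums -/
noncomputable def P (i : Fin 3) (t : ℝ) : ℂ := ∑ m ∈ K, a i m * e (m * t)

/-- the sums with half-integral frequencies -/
noncomputable def H (i : Fin 3) (t : ℝ) : ℂ := e (t / 2) * P K a i t

/-- the full sum -/
noncomputable def S3 (x y : ℝ) : ℂ := ∑ i, ∑ m ∈ K, a i m * (e (xc i m * x) * e (yc i m * y))

theorem cont_P (i : Fin 3) : Continuous (P K a i) := by
  unfold P
  exact continuous_finsetSum _ fun m _ =>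
    continuous_const.mul (cont_e.comp (continuous_const.mul continuous_id))

theorem cont_H (i : Fin 3) : Continuous (H K a i) := by
  unfold H
  exact (cont_e.comp (continuous_id.div_const 2)).mul (cont_P K a i)

theorem P_int (i : Fin 3) (t : ℝ) (k : ℤ) : P K a i (t + k) = P K a i t := by
  unfold P
  refine Finset.sum_congr rfl fun m _ => ?_
  have : e ((m : ℝ) * (t + k)) = e (m * t) := by
    rw [show (m : ℝ) * (t + k) = m * t + ((m * k : ℤ) : ℝ) by push_cast; ring, e_add_int]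
  rw [this]

/-- the folded sums -/
noncomputable def Q (i : Fin 3) (t : ℝ) : ℂ := e (-t) * P K a i (-(2 * t))

theorem cont_Q (i : Fin 3) : Continuous (Q K a i) := by
  unfold Q
  exact (cont_e.comp continuous_neg).mul ((cont_P K a i).comp (by fun_prop))

theorem Q_zero (i : Fin 3) (s : ℝ) : Q K a i (1 / 2 - s / 2) = - H K a i s := by
  unfold Q H
  have h1 := P_int K a i s (-1)
  rw [show -(2 * (1 / 2 - s / 2)) = s + ((-1 : ℤ) : ℝ) by push_cast; ring, h1,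
    show -(1 / 2 - s / 2) = s / 2 + -(1 / 2) by ring, e_add, e_neg_half]
  ring

theorem Q_one (i : Fin 3) (s : ℝ) : Q K a i (1 - s / 2) = H K a i s := by
  unfold Q H
  have h1 := P_int K a i s (-2)
  rw [show -(2 * (1 - s / 2)) = s + ((-2 : ℤ) : ℝ) by push_cast; ring, h1,
    show -(1 - s / 2) = s / 2 + ((-1 : ℤ) : ℝ) by push_cast; ring, e_add_int]

theorem P_zero (i : Fin 3) (s : ℝ) : P K a i (-(2 * (1 / 2 - s / 2))) = P K a i s := by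
  have h1 := P_int K a i s (-1)
  rw [show -(2 * (1 / 2 - s / 2)) = s + ((-1 : ℤ) : ℝ) by push_cast; ring, h1]

theorem P_one (i : Fin 3) (s : ℝ) : P K a i (-(2 * (1 - s / 2))) = P K a i s := by
  have h1 := P_int K a i s (-2)
  rw [show -(2 * (1 - s / 2)) = s + ((-2 : ℤ) : ℝ) by push_cast; ring, h1]

theorem S_one (t : ℝ) : S3 K a t 0 = Q K a 0 t + H K a 1 t + P K a 2 t := by
  unfold S3 Q H P
  rw [Fin.sum_univ_three, Finset.mul_sum, Finset.mul_sum]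
  congr 1
  · congr 1
    · refine Finset.sum_congr rfl fun m _ => ?_
      show a 0 m * (e (-(2 * (m : ℝ) + 1) * t) * e (-((m : ℝ) + 1 / 2) * 0)) = e (-t) * (a 0 m * e (m * -(2 * t)))
      rw [mul_zero, e_zero, mul_one, show -(2 * (m : ℝ) + 1) * t = -t + m * -(2 * t) by ring, e_add]
      ring
    · refine Finset.sum_congr rfl fun m _ => ?_
      show a 1 m * (e (((m : ℝ) + 1 / 2) * t) * e (-((m : ℝ) + 1 / 2) * 0)) = e (t / 2) * (a 1 m * e (m * t))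
      rw [mul_zero, e_zero, mul_one, show ((m : ℝ) + 1 / 2) * t = t / 2 + m * t by ring, e_add]
      ring
  · refine Finset.sum_congr rfl fun m _ => ?_
    show a 2 m * (e ((m : ℝ) * t) * e (2 * (m : ℝ) * 0)) = a 2 m * e (m * t)
    rw [mul_zero, e_zero, mul_one]

theorem S_two (t : ℝ) : S3 K a (1 - t) t = H K a 0 t - Q K a 1 t + P K a 2 t := by
  have h0 : ∑ m ∈ K, a 0 m * (e (xc 0 m * (1 - t)) * e (yc 0 m * t)) = e (t / 2) * P K a 0 t := by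
    unfold P
    rw [Finset.mul_sum]
    refine Finset.sum_congr rfl fun m _ => ?_
    show a 0 m * (e (-(2 * (m : ℝ) + 1) * (1 - t)) * e (-((m : ℝ) + 1 / 2) * t)) = e (t / 2) * (a 0 m * e (m * t))
    rw [← e_add, show -(2 * (m : ℝ) + 1) * (1 - t) + -((m : ℝ) + 1 / 2) * t =
      (t / 2 + m * t) + ((-(2 * m + 1) : ℤ) : ℝ) by push_cast; ring, e_add_int, e_add]
    ring
  have h1 : ∑ m ∈ K, a 1 m * (e (xc 1 m * (1 - t)) * e (yc 1 m * t)) = -(e (-t) * P K a 1 (-(2 * t))) := by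
    unfold P
    rw [Finset.mul_sum, ← Finset.sum_neg_distrib]
    refine Finset.sum_congr rfl fun m _ => ?_
    show a 1 m * (e (((m : ℝ) + 1 / 2) * (1 - t)) * e (-((m : ℝ) + 1 / 2) * t)) =
      -(e (-t) * (a 1 m * e (m * -(2 * t))))
    rw [← e_add, show ((m : ℝ) + 1 / 2) * (1 - t) + -((m : ℝ) + 1 / 2) * t =
      (-t + m * -(2 * t) + 1 / 2) + ((m : ℤ) : ℝ) by push_cast; ring, e_add_int, e_add, e_add, e_half]
    ring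
  have h2 : ∑ m ∈ K, a 2 m * (e (xc 2 m * (1 - t)) * e (yc 2 m * t)) = P K a 2 t := by
    unfold P
    refine Finset.sum_congr rfl fun m _ => ?_
    show a 2 m * (e ((m : ℝ) * (1 - t)) * e (2 * (m : ℝ) * t)) = a 2 m * e (m * t)
    rw [← e_add, show (m : ℝ) * (1 - t) + 2 * (m : ℝ) * t = m * t + ((m : ℤ) : ℝ) by push_cast; ring, e_add_int]
  unfold S3 Q H
  rw [Fin.sum_univ_three, h0, h1, h2]
  ring

theorem S_three (t : ℝ) : S3 K a 0 (1 - t) = -H K a 0 t - H K a 1 t + P K a 2 (-(2 * t)) := by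
  have hh : ∀ m : ℤ, e (-((m : ℝ) + 1 / 2) * (1 - t)) = -(e (t / 2) * e (m * t)) := by
    intro m
    rw [show -((m : ℝ) + 1 / 2) * (1 - t) = (t / 2 + m * t + 1 / 2) + ((-m - 1 : ℤ) : ℝ) by push_cast; ring,
      e_add_int, e_add, e_add, e_half]
    ring
  have h0 : ∑ m ∈ K, a 0 m * (e (xc 0 m * 0) * e (yc 0 m * (1 - t))) = -(e (t / 2) * P K a 0 t) := by
    unfold P
    rw [Finset.mul_sum, ← Finset.sum_neg_distrib]
    refine Finset.sum_congr rfl fun m _ => ?_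
    show a 0 m * (e (-(2 * (m : ℝ) + 1) * 0) * e (-((m : ℝ) + 1 / 2) * (1 - t))) = -(e (t / 2) * (a 0 m * e (m * t)))
    rw [mul_zero, e_zero, one_mul, hh]
    ring
  have h1 : ∑ m ∈ K, a 1 m * (e (xc 1 m * 0) * e (yc 1 m * (1 - t))) = -(e (t / 2) * P K a 1 t) := by
    unfold P
    rw [Finset.mul_sum, ← Finset.sum_neg_distrib]
    refine Finset.sum_congr rfl fun m _ => ?_
    show a 1 m * (e (((m : ℝ) + 1 / 2) * 0) * e (-((m : ℝ) + 1 / 2) * (1 - t))) = -(e (t / 2) * (a 1 m * e (m * t)))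
    rw [mul_zero, e_zero, one_mul, hh]
    ring
  have h2 : ∑ m ∈ K, a 2 m * (e (xc 2 m * 0) * e (yc 2 m * (1 - t))) = P K a 2 (-(2 * t)) := by
    unfold P
    refine Finset.sum_congr rfl fun m _ => ?_
    show a 2 m * (e ((m : ℝ) * 0) * e (2 * (m : ℝ) * (1 - t))) = a 2 m * e (m * -(2 * t))
    rw [mul_zero, e_zero, one_mul, show 2 * (m : ℝ) * (1 - t) = m * -(2 * t) + ((2 * m : ℤ) : ℝ) by push_cast; ring,
      e_add_int]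
  unfold S3 H
  rw [Fin.sum_univ_three, h0, h1, h2]
  ring

theorem norm_H (i : Fin 3) (t : ℝ) : ‖H K a i t‖ = ‖P K a i t‖ := by
  unfold H
  rw [norm_mul, norm_e, one_mul]

/-- pointwise inequalities -/
theorem pt1 (h₁ h₂ h₃ c₁ c₂ c₃ g₁ g₂ g₃ : ℂ) (e1 : g₁ = c₁ + h₂ + h₃) (e2 : g₂ = h₁ - c₂ + h₃)
    (e3 : g₃ = -h₁ - h₂ + c₃) :
    (‖h₁‖ ^ 2 + ‖h₂‖ ^ 2 + ‖h₃‖ ^ 2) + ‖h₁ + h₂ + h₃‖ ^ 2 ≤
      67 / 66 * (‖c₁‖ ^ 2 + ‖c₂‖ ^ 2 + ‖c₃‖ ^ 2) + 67 * (‖g₁‖ ^ 2 + ‖g₂‖ ^ 2 + ‖g₃‖ ^ 2) := by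
  have key : ∀ c g : ℂ, ‖c - g‖ ^ 2 ≤ 67 / 66 * ‖c‖ ^ 2 + 67 * ‖g‖ ^ 2 := by
    intro c g
    have h1 := norm_sub_le c g
    have h2 : ‖c - g‖ ^ 2 ≤ (‖c‖ + ‖g‖) ^ 2 := pow_le_pow_left₀ (norm_nonneg _) h1 2
    nlinarith [sq_nonneg (‖c‖ - 66 * ‖g‖)]
  have k1 := key c₁ g₁
  have k2 := key c₂ (-g₂)
  have k3 := key c₃ g₃
  rw [norm_neg] at k2
  have f1 : c₁ - g₁ = -(h₂ + h₃) := by rw [e1]; ring
  have f2 : c₂ - -g₂ = h₁ + h₃ := by rw [e2]; ring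
  have f3 : c₃ - g₃ = h₁ + h₂ := by rw [e3]; ring
  rw [f1, norm_neg] at k1
  rw [f2] at k2
  rw [f3] at k3
  have hid : (‖h₁‖ ^ 2 + ‖h₂‖ ^ 2 + ‖h₃‖ ^ 2) + ‖h₁ + h₂ + h₃‖ ^ 2 =
      ‖h₂ + h₃‖ ^ 2 + ‖h₁ + h₃‖ ^ 2 + ‖h₁ + h₂‖ ^ 2 := by
    simp only [← Complex.normSq_eq_norm_sq, Complex.normSq_apply, Complex.add_re, Complex.add_im]
    ring
  rw [hid]
  linarith

theorem pt2 (h₁ h₂ h₃ c₁ c₂ c₃ g₁ g₂ g₃ : ℂ) (e1 : g₁ = c₁ + h₂ + h₃) (e2 : g₂ = h₁ - c₂ + h₃)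
    (e3 : g₃ = -h₁ - h₂ + c₃) :
    ‖c₃ - c₁ + c₂‖ ^ 2 ≤ 16 * ‖h₁ + h₂ + h₃‖ ^ 2 + 4 * (‖g₁‖ ^ 2 + ‖g₂‖ ^ 2 + ‖g₃‖ ^ 2) := by
  have f : c₃ - c₁ + c₂ = 2 * (h₁ + h₂ + h₃) + (-g₁) + (-g₂) + g₃ := by rw [e1, e2, e3]; ring
  have h1 : ‖c₃ - c₁ + c₂‖ ≤ 2 * ‖h₁ + h₂ + h₃‖ + ‖g₁‖ + ‖g₂‖ + ‖g₃‖ := by
    rw [f]
    refine (norm_add_le _ _).trans (add_le_add ((norm_add_le _ _).trans (add_le_add ((norm_add_le _ _).trans
      (add_le_add ?_ ?_)) ?_)) le_rfl)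
    · rw [norm_mul]; norm_num
    · rw [norm_neg]
    · rw [norm_neg]
  have h2 : ‖c₃ - c₁ + c₂‖ ^ 2 ≤ (2 * ‖h₁ + h₂ + h₃‖ + ‖g₁‖ + ‖g₂‖ + ‖g₃‖) ^ 2 :=
    pow_le_pow_left₀ (norm_nonneg _) h1 2
  nlinarith [sq_nonneg (2 * ‖h₁ + h₂ + h₃‖ - ‖g₁‖), sq_nonneg (2 * ‖h₁ + h₂ + h₃‖ - ‖g₂‖),
    sq_nonneg (2 * ‖h₁ + h₂ + h₃‖ - ‖g₃‖), sq_nonneg (‖g₁‖ - ‖g₂‖), sq_nonneg (‖g₁‖ - ‖g₃‖),
    sq_nonneg (‖g₂‖ - ‖g₃‖)]

theorem pt3 (h₁ h₂ h₃ : ℂ) :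
    ‖h₁‖ ^ 2 + ‖h₂‖ ^ 2 + ‖h₃‖ ^ 2 ≤ ‖h₁ + h₂ + h₃‖ ^ 2 +
      2 * ((‖h₃ + h₁ - h₂‖ ^ 2 + ‖h₃ - h₁ + h₂‖ ^ 2) / 2) := by
  simp only [← Complex.normSq_eq_norm_sq, Complex.normSq_apply, Complex.add_re, Complex.add_im, Complex.sub_re,
    Complex.sub_im]
  nlinarith [sq_nonneg (h₁.re + h₂.re + 2 * h₃.re), sq_nonneg (h₁.im + h₂.im + 2 * h₃.im),
    sq_nonneg (h₁.re - h₂.re), sq_nonneg (h₁.im - h₂.im), sq_nonneg (h₁.re + h₂.re), sq_nonneg (h₁.im + h₂.im),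
    sq_nonneg h₃.re, sq_nonneg h₃.im]

theorem pt4 (h₁ h₂ h₃ c₁ c₂ c₃ g₁ g₂ g₃ : ℂ) (e1 : g₁ = c₁ + h₂ + h₃) (e2 : g₂ = h₁ - c₂ + h₃)
    (e3 : g₃ = -h₁ - h₂ + c₃) :
    ‖g₁‖ ^ 2 + ‖g₂‖ ^ 2 + ‖g₃‖ ^ 2 ≤
      2 * (‖c₁‖ ^ 2 + ‖c₂‖ ^ 2 + ‖c₃‖ ^ 2) + 8 * (‖h₁‖ ^ 2 + ‖h₂‖ ^ 2 + ‖h₃‖ ^ 2) := by
  have k1 : ‖g₁‖ ^ 2 ≤ 2 * ‖c₁‖ ^ 2 + 2 * ‖h₂ + h₃‖ ^ 2 := by
    rw [e1, add_assoc]; exact two_sq _ _
  have k2 : ‖g₂‖ ^ 2 ≤ 2 * ‖c₂‖ ^ 2 + 2 * ‖h₁ + h₃‖ ^ 2 := by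
    have := two_sq (-c₂) (h₁ + h₃)
    rw [norm_neg] at this
    rw [e2, show h₁ - c₂ + h₃ = -c₂ + (h₁ + h₃) by ring]; exact this
  have k3 : ‖g₃‖ ^ 2 ≤ 2 * ‖c₃‖ ^ 2 + 2 * ‖h₁ + h₂‖ ^ 2 := by
    have := two_sq c₃ (-(h₁ + h₂))
    rw [norm_neg] at this
    rw [e3, show -h₁ - h₂ + c₃ = c₃ + -(h₁ + h₂) by ring]; exact this
  have j1 := two_sq h₂ h₃
  have j2 := two_sq h₁ h₃
  have j3 := two_sq h₁ h₂
  linarith

/-- the Riesz inequality for the sums -/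
theorem riesz_core :
    (∑ i, ∑ m ∈ K, ‖a i m‖ ^ 2) / 4438 ≤
      ∫ t, ‖S3 K a t 0‖ ^ 2 ∂tau + ∫ t, ‖S3 K a (1 - t) t‖ ^ 2 ∂tau + ∫ t, ‖S3 K a 0 (1 - t)‖ ^ 2 ∂tau ∧
    ∫ t, ‖S3 K a t 0‖ ^ 2 ∂tau + ∫ t, ‖S3 K a (1 - t) t‖ ^ 2 ∂tau + ∫ t, ‖S3 K a 0 (1 - t)‖ ^ 2 ∂tau ≤
      10 * ∑ i, ∑ m ∈ K, ‖a i m‖ ^ 2 := by
  have cH0 := cont_H K a 0
  have cH1 := cont_H K a 1
  have cP2 := cont_P K a 2
  have cQ0 := cont_Q K a 0
  have cQ1 := cont_Q K a 1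
  have cP2' : Continuous fun t : ℝ => P K a 2 (-(2 * t)) := cP2.comp (by fun_prop)
  -- the energies
  have hN : ∫ t, (‖H K a 0 t‖ ^ 2 + ‖H K a 1 t‖ ^ 2 + ‖P K a 2 t‖ ^ 2) ∂tau = ∑ i, ∑ m ∈ K, ‖a i m‖ ^ 2 := by
    have i0 : Integrable (fun t => ‖H K a 0 t‖ ^ 2) tau := integrable_cont (by fun_prop)
    have i1 : Integrable (fun t => ‖H K a 1 t‖ ^ 2) tau := integrable_cont (by fun_prop)
    have i2 : Integrable (fun t => ‖P K a 2 t‖ ^ 2) tau := integrable_cont (by fun_prop)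
    have i01 : Integrable (fun t => ‖H K a 0 t‖ ^ 2 + ‖H K a 1 t‖ ^ 2) tau := i0.add i1
    rw [integral_add i01 i2, integral_add i0 i1, Fin.sum_univ_three]
    simp only [norm_H]
    have hp : ∀ i : Fin 3, ∫ t, ‖P K a i t‖ ^ 2 ∂tau = ∑ m ∈ K, ‖a i m‖ ^ 2 := fun i => parseval K (a i)
    rw [hp, hp, hp]
  have hC : ∫ t, (‖Q K a 0 t‖ ^ 2 + ‖Q K a 1 t‖ ^ 2 + ‖P K a 2 (-(2 * t))‖ ^ 2) ∂tau =
      ∫ t, (‖H K a 0 t‖ ^ 2 + ‖H K a 1 t‖ ^ 2 + ‖P K a 2 t‖ ^ 2) ∂tau := by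
    rw [fold _ (integrable_cont (by fun_prop))]
    simp only [Q_zero, Q_one, P_zero, P_one, norm_neg, smul_eq_mul]
    ring
  have hR : ∫ t, ‖P K a 2 (-(2 * t)) - Q K a 0 t + Q K a 1 t‖ ^ 2 ∂tau =
      ∫ t, (‖P K a 2 t + H K a 0 t - H K a 1 t‖ ^ 2 + ‖P K a 2 t - H K a 0 t + H K a 1 t‖ ^ 2) / 2 ∂tau := by
    rw [fold (fun t => ‖P K a 2 (-(2 * t)) - Q K a 0 t + Q K a 1 t‖ ^ 2) (integrable_cont (by fun_prop))]
    simp only [Q_zero, Q_one, P_zero, P_one, smul_eq_mul]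
    have i1 : Integrable (fun t => ‖P K a 2 t + H K a 0 t - H K a 1 t‖ ^ 2) tau := integrable_cont (by fun_prop)
    have i2 : Integrable (fun t => ‖P K a 2 t - H K a 0 t + H K a 1 t‖ ^ 2) tau := integrable_cont (by fun_prop)
    rw [integral_div, integral_add i1 i2]
    simp only [sub_neg_eq_add, ← sub_eq_add_neg]
    ring
  set g₁ : ℝ → ℂ := fun t => S3 K a t 0 with hg₁
  set g₂ : ℝ → ℂ := fun t => S3 K a (1 - t) t with hg₂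
  set g₃ : ℝ → ℂ := fun t => S3 K a 0 (1 - t) with hg₃
  have cg₁ : Continuous g₁ := by simp only [hg₁, S_one]; fun_prop
  have cg₂ : Continuous g₂ := by simp only [hg₂, S_two]; fun_prop
  have cg₃ : Continuous g₃ := by simp only [hg₃, S_three]; fun_prop
  have hG : ∫ t, ‖S3 K a t 0‖ ^ 2 ∂tau + ∫ t, ‖S3 K a (1 - t) t‖ ^ 2 ∂tau + ∫ t, ‖S3 K a 0 (1 - t)‖ ^ 2 ∂tau =
      ∫ t, (‖g₁ t‖ ^ 2 + ‖g₂ t‖ ^ 2 + ‖g₃ t‖ ^ 2) ∂tau := by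
    have i0 : Integrable (fun t => ‖g₁ t‖ ^ 2) tau := integrable_cont (by fun_prop)
    have i1 : Integrable (fun t => ‖g₂ t‖ ^ 2) tau := integrable_cont (by fun_prop)
    have i2 : Integrable (fun t => ‖g₃ t‖ ^ 2) tau := integrable_cont (by fun_prop)
    have i01 : Integrable (fun t => ‖g₁ t‖ ^ 2 + ‖g₂ t‖ ^ 2) tau := i0.add i1
    rw [integral_add i01 i2, integral_add i0 i1]
  rw [hG, ← hN]
  set n : ℝ → ℝ := fun t => ‖H K a 0 t‖ ^ 2 + ‖H K a 1 t‖ ^ 2 + ‖P K a 2 t‖ ^ 2 with hn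
  set c : ℝ → ℝ := fun t => ‖Q K a 0 t‖ ^ 2 + ‖Q K a 1 t‖ ^ 2 + ‖P K a 2 (-(2 * t))‖ ^ 2 with hc
  set g : ℝ → ℝ := fun t => ‖g₁ t‖ ^ 2 + ‖g₂ t‖ ^ 2 + ‖g₃ t‖ ^ 2 with hg
  set σ : ℝ → ℝ := fun t => ‖H K a 0 t + H K a 1 t + P K a 2 t‖ ^ 2 with hσ
  set r : ℝ → ℝ := fun t => ‖P K a 2 (-(2 * t)) - Q K a 0 t + Q K a 1 t‖ ^ 2 with hr
  set q : ℝ → ℝ := fun t => (‖P K a 2 t + H K a 0 t - H K a 1 t‖ ^ 2 +
    ‖P K a 2 t - H K a 0 t + H K a 1 t‖ ^ 2) / 2 with hq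
  have in_ : Integrable n tau := integrable_cont (by fun_prop)
  have ic : Integrable c tau := integrable_cont (by fun_prop)
  have ig : Integrable g tau := integrable_cont (by fun_prop)
  have iσ : Integrable σ tau := integrable_cont (by fun_prop)
  have ir : Integrable r tau := integrable_cont (by fun_prop)
  have iq : Integrable q tau := integrable_cont (by fun_prop)
  have E1 : ∀ t, g₁ t = Q K a 0 t + H K a 1 t + P K a 2 t := fun t => S_one K a t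
  have E2 : ∀ t, g₂ t = H K a 0 t - Q K a 1 t + P K a 2 t := fun t => S_two K a t
  have E3 : ∀ t, g₃ t = -H K a 0 t - H K a 1 t + P K a 2 (-(2 * t)) := fun t => S_three K a t
  have J1 : ∫ t, n t ∂tau + ∫ t, σ t ∂tau ≤ 67 / 66 * ∫ t, c t ∂tau + 67 * ∫ t, g t ∂tau := by
    rw [← integral_add in_ iσ, ← integral_const_mul, ← integral_const_mul,
      ← integral_add (ic.const_mul _) (ig.const_mul _)]
    exact integral_mono (in_.add iσ) ((ic.const_mul _).add (ig.const_mul _)) fun t =>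
      pt1 _ _ _ _ _ _ _ _ _ (E1 t) (E2 t) (E3 t)
  have J2 : ∫ t, r t ∂tau ≤ 16 * ∫ t, σ t ∂tau + 4 * ∫ t, g t ∂tau := by
    rw [← integral_const_mul, ← integral_const_mul, ← integral_add (iσ.const_mul _) (ig.const_mul _)]
    exact integral_mono ir ((iσ.const_mul _).add (ig.const_mul _)) fun t =>
      pt2 _ _ _ _ _ _ _ _ _ (E1 t) (E2 t) (E3 t)
  have J3 : ∫ t, n t ∂tau ≤ ∫ t, σ t ∂tau + 2 * ∫ t, q t ∂tau := by
    rw [← integral_const_mul, ← integral_add iσ (iq.const_mul _)]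
    exact integral_mono in_ (iσ.add (iq.const_mul _)) fun t => pt3 _ _ _
  have J4 : ∫ t, g t ∂tau ≤ 2 * ∫ t, c t ∂tau + 8 * ∫ t, n t ∂tau := by
    rw [← integral_const_mul, ← integral_const_mul, ← integral_add (ic.const_mul _) (in_.const_mul _)]
    exact integral_mono ig ((ic.const_mul _).add (in_.const_mul _)) fun t =>
      pt4 _ _ _ _ _ _ _ _ _ (E1 t) (E2 t) (E3 t)
  constructor
  · linarith
  · linarith

end sums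

end Pool.Agent.L7h34.TR
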